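import Mathlib
import Pool.Agent.Helper93.ML.Window

/-!
# Module M5_Lines
-/

namespace Pool.Agent.Helper47.ML

open Pool.Agent.Helper93.ML

variable {G : Type} [Group G] {M : Mark G}

/-- an infix of an almost geodesic word is almost geodesic -/
theorem ag_infix (M : Mark G) {a b : List Ltr} (hab : a <:+: b) {e : ℕ}
    (hb : b.length ≤ M.len (M.ev b) + e) : a.length ≤ M.len (M.ev a) + e := by
  obtain ⟨s, t, rfl⟩ := hab
  have h1 : M.ev (s ++ a ++ t) = M.ev s * M.ev a * M.ev t := by
    rw [M.ev_append, M.ev_append]
  rw [h1] at hb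
  have h2 := M.len_mul (M.ev s * M.ev a) (M.ev t)
  have h3 := M.len_mul (M.ev s) (M.ev a)
  have h4 := M.len_le s
  have h5 := M.len_le t
  simp only [List.length_append] at hb
  omega

/-- reading a window inside one period -/
theorem line_read1 (M : Mark G) (R : List Ltr) (hR : 0 < R.length) (q : ℤ) (r k : ℕ)
    (h : r + k ≤ R.length) :
    M.d (M.line R (q * R.length + r)) (M.line R (q * R.length + (r + k : ℕ))) =
      M.len (M.ev ((R.drop r).take k)) := by
  rw [M.line_eq R hR q r (by omega), M.line_eq R hR q (r + k) h, M.d_mul_left,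
    M.ev_take_add R r k, M.d_mul_right_self]

/-- reading a window around a multiple of the period -/
theorem line_read2 (M : Mark G) (R : List Ltr) (hR : 0 < R.length) (q : ℤ) (r k : ℕ)
    (hr : r ≤ R.length) (h : k ≤ R.length) :
    M.d (M.line R (q * R.length + r)) (M.line R ((q + 1) * R.length + k)) =
      M.len (M.ev (R.drop r ++ R.take k)) := by
  rw [M.line_eq R hR q r hr, M.line_eq R hR (q + 1) k h, zpow_add_one, mul_assoc, M.d_mul_left]
  have h1 : M.ev R = M.ev (R.take r) * M.ev (R.drop r) := by
    rw [← M.ev_append, List.take_append_drop]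
  rw [h1, mul_assoc, M.d_mul_right_self, M.ev_append]

section

variable {cons : List (ℕ × ℕ)} {δ : ℕ} (V : Lvl M cons δ)

theorem rel_len {w : List Ltr} (hw : w.length = V.l) :
    (V.rel w).length = V.l + V.n + 2 := by
  have h := V.isCode.len w hw
  unfold Lvl.rel
  simp only [List.length_append, List.length_cons, List.length_nil]
  omega

/-- every window of at most `l` steps of the relator line is almost geodesic -/
theorem window_ag (hu : ∀ w ∈ V.K, (V.code w).length + 2 ≤
      M.len (M.ev (V.x w :: (V.code w ++ [V.y w])))) (hln : V.l ≤ V.n)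
    {w : List Ltr} (hwK : w ∈ V.K) (a b : ℤ) (hab : a ≤ b) (hb : b ≤ a + V.l) :
    b ≤ a + M.d (M.line (V.rel w) a) (M.line (V.rel w) b) + 2 * (δ : ℤ) := by
  have hw := (V.hK w hwK).1
  have hwg := (V.hK w hwK).2
  have hcl := V.isCode.len w hw
  have hlen := rel_len V hw
  have hRpos : 0 < (V.rel w).length := by omega
  have hpos : (0 : ℤ) < ((V.rel w).length : ℤ) := by exact_mod_cast hRpos
  have hr0 := Int.emod_nonneg a hpos.ne'
  have hr1 := Int.emod_lt_of_pos a hpos
  obtain ⟨r, hr⟩ := Int.eq_ofNat_of_zero_le hr0
  obtain ⟨k, hk⟩ := Int.le.dest hab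
  set q := a / ((V.rel w).length : ℤ) with hq
  have ha : a = q * (V.rel w).length + r := by
    rw [← hr]
    have := Int.mul_ediv_add_emod a ((V.rel w).length : ℤ)
    rw [← hq] at this
    linarith
  have hrT : r < (V.rel w).length := by
    rw [hr] at hr1; exact_mod_cast hr1
  have hkl : k ≤ V.l := by omega
  set u := V.x w :: (V.code w ++ [V.y w]) with hudef
  have hulen : u.length = V.n + 2 := by
    rw [hudef]; simp only [List.length_cons, List.length_append, List.length_nil]; omega
  have hrel : V.rel w = w ++ u := rfl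
  have hrel' : V.rel w = (w ++ [V.x w]) ++ (V.code w ++ [V.y w]) := by
    unfold Lvl.rel; simp
  have hrel'' : V.rel w = (w ++ V.x w :: V.code w) ++ [V.y w] := by
    unfold Lvl.rel; simp
  by_cases hcase : r + k ≤ (V.rel w).length
  · -- inside one period
    have hb' : b = q * (V.rel w).length + (r + k : ℕ) := by
      rw [← hk, ha]; push_cast; ring
    have hd := line_read1 M (V.rel w) hRpos q r k hcase
    rw [← hb', ← ha] at hd
    rw [hd]
    have hl : (((V.rel w).drop r).take k).length = k := by
      rw [List.length_take, List.length_drop]; omega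
    suffices h : (((V.rel w).drop r).take k).length ≤
        M.len (M.ev (((V.rel w).drop r).take k)) + 2 * δ by
      rw [hl] at h
      omega
    by_cases h1 : r + k ≤ V.l
    · -- inside w
      have hinf : ((V.rel w).drop r).take k <:+: w := by
        rw [hrel, List.drop_append_of_le_length (by omega),
          List.take_append_of_le_length (by rw [List.length_drop]; omega)]
        exact (List.take_prefix _ _).isInfix.trans (List.drop_suffix _ _).isInfix
      exact ag_infix M hinf (by omega)
    · by_cases h2 : V.l ≤ r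
      · -- inside u
        have hinf : ((V.rel w).drop r).take k <:+: u := by
          rw [hrel, List.drop_append, List.drop_eq_nil_of_le (by omega : w.length ≤ r),
            List.nil_append]
          exact (List.take_prefix _ _).isInfix.trans (List.drop_suffix _ _).isInfix
        have := hu w hwK
        rw [← hudef] at this
        exact ag_infix M hinf (by omega)
      · -- around the first junction
        have hinf : ((V.rel w).drop r).take k <:+: (w ++ V.x w :: V.code w) := by
          rw [hrel'', List.drop_append_of_le_length (by simp; omega),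
            List.take_append_of_le_length (by
              rw [List.length_drop, List.length_append, List.length_cons]; omega)]
          exact (List.take_prefix _ _).isInfix.trans (List.drop_suffix _ _).isInfix
        have hj := V.jx w hwK
        apply ag_infix M hinf
        rw [List.length_append, List.length_cons]
        omega
  · -- around a multiple of the period
    obtain ⟨s, hs⟩ : ∃ s : ℕ, r + k = (V.rel w).length + s := ⟨r + k - (V.rel w).length, by omega⟩
    have hb' : b = (q + 1) * (V.rel w).length + s := by
      have : ((r + k : ℕ) : ℤ) = ((V.rel w).length + s : ℕ) := by exact_mod_cast hs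
      push_cast at this
      rw [← hk, ha]; linarith
    have hd := line_read2 M (V.rel w) hRpos q r s hrT.le (by omega)
    rw [← hb', ← ha] at hd
    rw [hd]
    have hl : ((V.rel w).drop r ++ (V.rel w).take s).length = k := by
      rw [List.length_append, List.length_take, List.length_drop]; omega
    suffices h : ((V.rel w).drop r ++ (V.rel w).take s).length ≤
        M.len (M.ev ((V.rel w).drop r ++ (V.rel w).take s)) + 2 * δ by
      rw [hl] at h
      omega
    have e1 : (V.rel w).take s = w.take s := by
      rw [hrel, List.take_append_of_le_length (by omega)]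
    have e2 : (V.rel w).drop r = (V.code w ++ [V.y w]).drop (r - (V.l + 1)) := by
      rw [hrel', List.drop_append, List.drop_eq_nil_of_le (by simp; omega), List.nil_append]
      congr 1
      rw [List.length_append]; simp; omega
    have hinf : ((V.rel w).drop r ++ (V.rel w).take s) <:+: (V.code w ++ V.y w :: w) := by
      rw [e1, e2]
      have e3 : V.code w ++ V.y w :: w = (V.code w ++ [V.y w]) ++ w := by simp
      rw [e3]
      refine ⟨(V.code w ++ [V.y w]).take (r - (V.l + 1)), w.drop s, ?_⟩
      rw [← List.append_assoc, List.take_append_drop, List.append_assoc, List.take_append_drop]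
    have hj := V.jy w hwK
    apply ag_infix M hinf
    rw [List.length_append, List.length_cons]
    omega

/-- module M5_Lines, assuming that the words `x code y` are geodesic -/
theorem lines_of_geod (hinv : Inv M cons δ) (hu : ∀ w ∈ V.K, (V.code w).length + 2 ≤
      M.len (M.ev (V.x w :: (V.code w ++ [V.y w])))) {C : ℕ}
    (hC : V.l + V.n + 2 ≤ C * V.l) (hl : 100 * (δ + 1) ≤ V.l) (hln : V.l ≤ V.n)
    {w : List Ltr} (hwK : w ∈ V.K) :
      (∀ a b c : ℤ, a ≤ b → b ≤ c →
        M.d (M.line (V.rel w) a) (M.line (V.rel w) b) +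
          M.d (M.line (V.rel w) b) (M.line (V.rel w) c)
          ≤ M.d (M.line (V.rel w) a) (M.line (V.rel w) c) + 2 * (100 * (C + 1) * (δ + 1))) ∧
      (∀ a b : ℤ, a ≤ b → b ≤ a + 4 * ((V.l + V.n + 2 : ℕ) : ℤ) →
        b ≤ a + M.d (M.line (V.rel w) a) (M.line (V.rel w) b) +
          ((100 * (C + 1) * (δ + 1) : ℕ) : ℤ)) ∧
      (∀ a b : ℤ, a ≤ b →
        b ≤ a + 2 * M.d (M.line (V.rel w) a) (M.line (V.rel w) b) +
          2 * ((100 * (C + 1) * (δ + 1) : ℕ) : ℤ)) := by
  have hw := (V.hK w hwK).1
  have hlen := rel_len V hw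
  have hRpos : 0 < (V.rel w).length := by omega
  have hbig : 6 * δ ≤ 100 * (C + 1) * (δ + 1) := by nlinarith [Nat.zero_le C, Nat.zero_le δ]
  have hpath : ∀ (a : ℤ) (n : ℕ), IsPath M.d (fun i : ℕ => M.line (V.rel w) (a + i)) n := by
    intro a n i _
    have := M.line_step (V.rel w) hRpos (a + i)
    simp only
    push_cast
    rw [← add_assoc]
    exact this
  have hLQ : ∀ (a : ℤ) (n : ℕ), LQ M.d (fun i : ℕ => M.line (V.rel w) (a + i)) n (V.l / 2) δ := by
    intro a n i k hik _ hk2
    have := window_ag V hu hln hwK (a + i) (a + k) (by omega) (by omega)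
    simp only
    omega
  have hA : 8 * δ + 4 * δ < V.l / 2 := by omega
  refine ⟨?_, ?_, ?_⟩
  · intro a b c hab hbc
    obtain ⟨j, rfl⟩ := Int.le.dest hab
    obtain ⟨k, rfl⟩ := Int.le.dest hbc
    have h1 := local_str M.isGeo hinv.hyp (hpath a (j + k)) (hLQ a (j + k)) (by omega) 0 j (j + k)
      (by omega) (by omega) le_rfl
    simp only [Nat.cast_zero, add_zero, Nat.cast_add, ← add_assoc] at h1
    omega
  · intro a b hab hb
    obtain ⟨j, rfl⟩ := Int.le.dest hab
    have h1 := local_growth M.isGeo hinv.hyp (hpath a j) (hLQ a j) (by omega) _ 0 j rfl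
      (by omega) le_rfl
    simp only [Nat.cast_zero, add_zero, Nat.sub_zero, zero_add] at h1
    have hj : j ≤ 4 * (V.l + V.n + 2) := by omega
    have h2 : j / (V.l / 2) ≤ 9 * C := by
      have h3 : j ≤ 4 * (C * V.l) := by omega
      apply Nat.div_le_of_le_mul
      have h4 : 8 * V.l ≤ 18 * (V.l / 2) := by omega
      have h5 : (8 * V.l) * C ≤ (18 * (V.l / 2)) * C := Nat.mul_le_mul_right _ h4
      nlinarith
    have h3 : (j / (V.l / 2) + 1) * (4 * δ + 2 * δ) ≤ 100 * (C + 1) * (δ + 1) := by
      calc (j / (V.l / 2) + 1) * (4 * δ + 2 * δ) ≤ (9 * C + 1) * (4 * δ + 2 * δ) :=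
            Nat.mul_le_mul_right _ (by omega)
        _ ≤ 100 * (C + 1) * (δ + 1) := by nlinarith [Nat.zero_le (C * δ)]
    have h4 : (j : ℤ) ≤ M.d (M.line (V.rel w) a) (M.line (V.rel w) (a + j)) +
        ((100 * (C + 1) * (δ + 1) : ℕ) : ℤ) := by
      exact_mod_cast h1.trans (Nat.add_le_add_left h3 _)
    linarith
  · intro a b hab
    obtain ⟨j, rfl⟩ := Int.le.dest hab
    have h1 := local_growth2 M.isGeo hinv.hyp (hpath a j) (hLQ a j) hA (i := 0) (j := j)
      (by omega) le_rfl
    simp only [Nat.cast_zero, add_zero, zero_add] at h1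
    have h2 : j ≤ 2 * M.d (M.line (V.rel w) a) (M.line (V.rel w) (a + j)) +
        2 * (100 * (C + 1) * (δ + 1)) := by omega
    have h4 : (j : ℤ) ≤ 2 * M.d (M.line (V.rel w) a) (M.line (V.rel w) (a + j)) +
        2 * ((100 * (C + 1) * (δ + 1) : ℕ) : ℤ) := by exact_mod_cast h2
    linarith

end

theorem stmtM5Lines : StmtM5Lines := by
  intro G _ M cons δ V C hC hl hln w hw
  refine lines_of_geod V V.inv ?_ hC hl hln hw
  intro w' hw'
  have h := V.u_geod hw' (by omega)
  unfold Mark.Gd at h
  simp only [List.length_cons, List.length_append, List.length_nil] at h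
  omega

end Pool.Agent.Helper47.ML
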